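import Pool.Agent.J6H5.C26.Ker

/-! Sharper checks: definitions. -/

set_option autoImplicit false
set_option maxRecDepth 100000

namespace Pool.Agent.J6H5.Sg

noncomputable section

open Pool.Agent.J6H5.C26
open Pool.Agent.Y435.T7 (st cnd)
open Pool.Agent.N443 (tot3)

/-- the gap -/
def s0 : ℕ := 194760

/-- the number with the field `2 ^ 38` for every member of the list -/
def EL (L : List ℕ) : ℕ := @List.rec ℕ (fun _ => ℕ) 0 (fun i _ ih => Nat.add (Nat.shiftLeft 274877906944 (Nat.mul 40 i)) ih) L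

def chkA (c : ℕ) : Bool := Nat.beq (Nat.land (Nat.add (tot3 b16 GS c) (dd (Nat.sub (Nat.add 274877906943 s0) cC))) (dd 824633720832)) 0
def chkG (L : List ℕ) (c : ℕ) : Bool := st (fun T => cnd
  (Nat.beq (Nat.land (Nat.add T (dd (Nat.sub 274877906943 cC))) (dd 824633720832)) 0)
  (Nat.beq (Nat.land (Nat.add T (dd (Nat.sub (Nat.add 274877906943 s0) cC))) (dd 824633720832)) (EL L)) false) (tot3 b16 GS c)

end

end Pool.Agent.J6H5.Sg
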