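import Pool.Agent.J6H5.C26.Tot
import Pool.Agent.J6H5.Sg.Ker

/-! Sharper checks: all values are below the bound by `s0`, except for listed links. -/

set_option autoImplicit false
set_option maxRecDepth 100000
set_option exponentiation.threshold 3000000
open Finset Equiv

namespace Pool.Agent.J6H5.Sg

noncomputable section

open Pool.Agent.J6H5.C26
open Pool.Agent.Y435.T7 (st cnd d2 enc enc_congr enc_add fld_lt enc_inj)
open Pool.Agent.N443 (st_eq cnd_and codeN Psi mkN_lt tot3 encLand ltLand)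

theorem EL_eq {L : List ℕ} (hn : L.Nodup) (hl : ∀ i ∈ L, i < 2 ^ 20) :
    EL L = enc 40 20 (fun i => if i ∈ L then 274877906944 else 0) := by
  have h1 : EL L = (L.map fun i => 274877906944 * 2 ^ (40 * i)).sum := by
    clear hn hl
    induction L with
    | nil => rfl
    | cons a L ih =>
      rw [List.map_cons, List.sum_cons, ← ih]
      show (274877906944 <<< (40 * a)) + EL L = _
      rw [Nat.shiftLeft_eq]
  rw [h1]
  unfold enc
  have h2 : ∀ i ∈ range (2 ^ 20), (if i ∈ L then 274877906944 else 0) * 2 ^ (40 * i) =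
      if i ∈ L.toFinset then 274877906944 * 2 ^ (40 * i) else 0 := by
    intro i _
    simp only [List.mem_toFinset]
    split_ifs <;> simp
  rw [sum_congr rfl h2, ← sum_filter]
  have h3 : (range (2 ^ 20)).filter (fun i => i ∈ L.toFinset) = L.toFinset := by
    ext i
    rw [mem_filter, mem_range, List.mem_toFinset]
    exact ⟨fun h => h.2, fun h => ⟨hl i h, h⟩⟩
  rw [h3, List.sum_toFinset _ hn]

theorem land_eq (c : ℕ) {X : ℕ} (hX : X + 21 * DM < 2 ^ 40) :
    Nat.land (Nat.add (tot3 b16 GS c) (dd X)) (dd 824633720832) = enc 40 20 (fun i => Nat.land (SV c i + X) 824633720832) := by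
  rw [tot_eq, dd_eq, dd_eq]
  have e1 : Nat.add (enc 40 20 (SV c)) (enc 40 20 (fun _ => X)) = enc 40 20 (fun i => SV c i + X) := enc_add _ _ _ _
  have hlt : ∀ i < 2 ^ 20, (fun i => SV c i + X) i < 2 ^ 40 := fun i hi => by
    have := SV_le c hi
    show SV c i + X < 2 ^ 40
    omega
  have hk : ∀ i < 2 ^ 20, (fun _ : ℕ => 824633720832) i < 2 ^ 40 := fun i _ => by norm_num
  rw [e1, encLand (by norm_num) hlt hk]

theorem land_lt (c : ℕ) {X : ℕ} (hX : X + 21 * DM < 2 ^ 40) {i : ℕ} (hi : i < 2 ^ 20) :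
    Nat.land (SV c i + X) 824633720832 < 2 ^ 40 := by
  have := SV_le c hi
  have h2 : Nat.land (SV c i + X) 824633720832 ≤ SV c i + X := Nat.and_le_left
  omega

theorem of_mark {c X : ℕ} (hX : X + 21 * DM < 2 ^ 40) {L : List ℕ} (hn : L.Nodup) (hl : ∀ i ∈ L, i < 2 ^ 20)
    (h : Nat.land (Nat.add (tot3 b16 GS c) (dd X)) (dd 824633720832) = EL L) {i : ℕ} (hi : i < 2 ^ 20) (hiL : i ∉ L) :
    SV c i + X < 2 ^ 38 := by
  rw [land_eq c hX, EL_eq hn hl] at h
  have h1 := enc_inj (s := 40) (n := 20) (by norm_num) (fun i hi => land_lt c hX hi)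
    (fun i _ => by split_ifs <;> norm_num) h hi
  rw [if_neg hiL] at h1
  have := SV_le c hi
  exact ltLand (x := SV c i + X) (w := 38) (s := 40) (by omega) (by norm_num) h1

theorem chkA_spec {c : ℕ} (h : chkA c = true) {i : ℕ} (hi : i < 2 ^ 20) : SV c i + s0 ≤ cC := by
  unfold chkA at h
  have h1 := Nat.eq_of_beq_eq_true h
  have hs : Nat.sub (Nat.add 274877906943 s0) cC = 274877906943 + s0 - cC := rfl
  have h2 := of_mark (X := Nat.sub (Nat.add 274877906943 s0) cC) (by rw [hs]; unfold s0 cC DM; norm_num) (L := []) List.nodup_nil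
    (fun i hi => absurd hi (List.not_mem_nil)) h1 hi (List.not_mem_nil)
  rw [hs] at h2
  have : cC < 274877906943 := by unfold cC; norm_num
  norm_num at h2
  omega

theorem chkG_spec {L : List ℕ} (hn : L.Nodup) (hl : ∀ i ∈ L, i < 2 ^ 20) {c : ℕ} (h : chkG L c = true) {i : ℕ} (hi : i < 2 ^ 20) :
    SV c i ≤ cC ∧ (i ∉ L → SV c i + s0 ≤ cC) := by
  unfold chkG at h
  rw [st_eq] at h
  obtain ⟨ha, hb⟩ := cnd_and h
  refine ⟨chk_spec ha hi, fun hiL => ?_⟩
  have h1 := Nat.eq_of_beq_eq_true hb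
  have hs : Nat.sub (Nat.add 274877906943 s0) cC = 274877906943 + s0 - cC := rfl
  have h2 := of_mark (X := Nat.sub (Nat.add 274877906943 s0) cC) (by rw [hs]; unfold s0 cC DM; norm_num) hn hl h1 hi hiL
  rw [hs] at h2
  have : cC < 274877906943 := by unfold cC; norm_num
  norm_num at h2
  omega

end

end Pool.Agent.J6H5.Sg
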