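import Pool.Agent.J6H5.Sg.Pat
import Pool.Agent.N443.PL.Low2

/-! The bound for the number of edges, the construction, and the limit. -/

set_option autoImplicit false
set_option maxRecDepth 100000
open Finset Equiv Filter Topology

namespace Pool.Agent.J6H5.Sg

noncomputable section

open Pool.Agent.J6H5.C26

open Pool.Agent.N443 (gv card_tuples sum7)

/-- every set of five vertices contains a four-element set which is not a member of `H` -/
def CliqueFree {n : ℕ} (H : Finset (Finset (Fin n))) : Prop :=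
  ∀ S : Finset (Fin n), S.card = 5 → ∃ Q ⊆ S, Q.card = 4 ∧ Q ∉ H

/-- the members of `H` inside the six-element set `S` are the four-element sets which contain `x` and do not contain both of
`a` and `b`, for some three different elements `x`, `a`, `b` of `S` -/
def IsPattern {n : ℕ} (H : Finset (Finset (Fin n))) (S : Finset (Fin n)) : Prop :=
  S.card = 6 ∧ ∃ x ∈ S, ∃ a ∈ S, ∃ b ∈ S, x ≠ a ∧ x ≠ b ∧ a ≠ b ∧
    ∀ Q ⊆ S, Q.card = 4 → (Q ∈ H ↔ x ∈ Q ∧ ¬ (a ∈ Q ∧ b ∈ Q))

open Classical in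
/-- the number of the sets of six vertices with the pattern -/
def patterns {n : ℕ} (H : Finset (Finset (Fin n))) : ℕ :=
  ((univ : Finset (Finset (Fin n))).filter (IsPattern H)).card

theorem sum4 {V : Type} [Fintype V] {M : Type} [AddCommMonoid M] (f : (Fin 4 → V) → M) :
    ∑ u, f u = ∑ a, ∑ b, ∑ c, ∑ d, f ![a, b, c, d] := by
  let e : (Fin 4 → V) ≃ V × V × V × V :=
    { toFun := fun u => (u 0, u 1, u 2, u 3)
      invFun := fun p => ![p.1, p.2.1, p.2.2.1, p.2.2.2]
      left_inv := by intro u; funext i; fin_cases i <;> rfl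
      right_inv := by rintro ⟨a, b, c, d⟩; rfl }
  rw [Fintype.sum_equiv e f (fun p => f (e.symm p)) fun u => by rw [Equiv.symm_apply_apply]]
  simp only [Fintype.sum_prod_type]
  rfl

theorem ind_pattern {n : ℕ} {G : Finset (Finset (Fin n))} {S : Finset (Fin n)} (h : Ind (fun A => A ∈ G) S) :
    IsPattern G S := by
  obtain ⟨w, hi, rfl, h⟩ := h
  refine ⟨by rw [card_image_of_injective _ hi, card_univ, Fintype.card_fin], w 0, mem_image_of_mem _ (mem_univ _), w 1,
    mem_image_of_mem _ (mem_univ _), w 2, mem_image_of_mem _ (mem_univ _), fun h => ?_, fun h => ?_, fun h => ?_,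
    fun Q hQ hc => ?_⟩
  · exact absurd (hi h) (by decide)
  · exact absurd (hi h) (by decide)
  · exact absurd (hi h) (by decide)
  · have e : (univ.filter fun i => w i ∈ Q).image w = Q := by
      ext z
      rw [mem_image]
      constructor
      · rintro ⟨i, hi, rfl⟩; exact (mem_filter.mp hi).2
      · intro hz
        obtain ⟨i, -, rfl⟩ := mem_image.mp (hQ hz)
        exact ⟨i, mem_filter.mpr ⟨mem_univ _, hz⟩, rfl⟩
    have hc4 : (univ.filter fun i => w i ∈ Q).card = 4 := by
      rw [← hc]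
      conv_rhs => rw [← e]
      rw [card_image_of_injective _ hi]
    have h1 := h (univ.filter fun i => w i ∈ Q) (mem_powersetCard.mpr ⟨subset_univ _, hc4⟩)
    have h1' : Q ∈ G ↔ Pat (univ.filter fun i => w i ∈ Q) := by
      rw [e] at h1; exact h1
    rw [h1']
    unfold Pat
    simp only [hc4, mem_filter, mem_univ, true_and]

theorem sum_gv4 {n : ℕ} (G : Finset (Finset (Fin n))) :
    ∑ u : Fin 7 → Fin n, gv (fun A : Finset (Fin n) => A ∈ G) u {0, 1, 2, 3}
      = n ^ 3 * (univ.filter fun v : Fin 4 → Fin n => univ.image v ∈ G).card := by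
  classical
  rw [card_filter, sum4, sum7]
  simp only [mul_sum]
  refine sum_congr rfl fun a _ => sum_congr rfl fun b _ => sum_congr rfl fun c _ => sum_congr rfl fun d _ => ?_
  have h3 : ∀ e x y : Fin n, gv (fun A : Finset (Fin n) => A ∈ G) ![a, b, c, d, e, x, y] {0, 1, 2, 3} =
      if univ.image ![a, b, c, d] ∈ G then 1 else 0 := by
    intro e x y
    have e1 : univ.image ![a, b, c, d] = {a, b, c, d} := by
      ext x
      simp only [mem_image, mem_univ, true_and, mem_insert, mem_singleton]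
      constructor
      · rintro ⟨i, rfl⟩
        fin_cases i <;> simp
      · rintro (rfl | rfl | rfl | rfl)
        · exact ⟨0, rfl⟩
        · exact ⟨1, rfl⟩
        · exact ⟨2, rfl⟩
        · exact ⟨3, rfl⟩
    have e2 : ({0, 1, 2, 3} : Finset (Fin 7)).image ![a, b, c, d, e, x, y] = {a, b, c, d} := by
      rw [image_insert, image_insert, image_insert, image_singleton]
      rfl
    unfold gv
    rw [e1, e2]
    by_cases hm : ({a, b, c, d} : Finset (Fin n)) ∈ G
    · simp [hm]
    · simp [hm]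
  rw [sum_congr rfl fun e _ => sum_congr rfl fun x _ => sum_congr rfl fun y _ => h3 e x y, sum_const, sum_const, sum_const,
    card_univ, Fintype.card_fin, smul_eq_mul, smul_eq_mul, smul_eq_mul]
  ring

theorem free_of {n : ℕ} {G : Finset (Finset (Fin n))} (hr : ∀ A ∈ G, A.card = 4) (hK : CliqueFree G) :
    Free (fun A : Finset (Fin n) => A ∈ G) := by
  refine ⟨hr, fun P hP => ?_⟩
  obtain ⟨Q, h1, h2, h3⟩ := hK P hP
  exact ⟨Q, mem_powersetCard.mpr ⟨h1, h2⟩, h3⟩

theorem X6_patterns {n : ℕ} {G : Finset (Finset (Fin n))} (hr : ∀ A ∈ G, A.card = 4) (hK : CliqueFree G) :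
    ∑ u : Fin 7 → Fin n, X6 (gv (fun A : Finset (Fin n) => A ∈ G) u) ≤ n * (720 * patterns G + 15 * n ^ 5) := by
  classical
  have h4 := X6_sum (free_of hr hK)
  have h5 : (Cop (fun A : Finset (Fin n) => A ∈ G)).card ≤ patterns G := by
    unfold patterns Cop
    refine card_le_card fun S hS => ?_
    rw [mem_filter] at hS
    exact mem_filter.mpr ⟨mem_univ _, ind_pattern hS.2⟩
  rw [Fintype.card_fin] at h4
  exact h4.trans (Nat.mul_le_mul_left _ (Nat.add_le_add_right (Nat.mul_le_mul_left _ h5) _))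

/-- the bound with exact constants -/
theorem edges {n : ℕ} {G : Finset (Finset (Fin n))} (hr : ∀ A ∈ G, A.card = 4) (hK : CliqueFree G) :
    16 * (24 * G.card) * n ^ 2 ≤ 11 * n ^ 6 + 16 * (720 * patterns G + 15 * n ^ 5) := by
  classical
  have h1 := (core (free_of hr hK)).1
  rw [sum_gv4, Fintype.card_fin] at h1
  have h3 := card_tuples (k := 4) G hr
  have h4 := X6_patterns hr hK
  rcases Nat.eq_zero_or_pos n with rfl | hn
  · norm_num
  · have h6 : n * (16 * (24 * G.card) * n ^ 2) ≤ n * (11 * n ^ 6 + 16 * (720 * patterns G + 15 * n ^ 5)) := by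
      calc n * (16 * (24 * G.card) * n ^ 2) = 16 * (n ^ 3 * (24 * G.card)) := by ring
        _ ≤ 16 * (n ^ 3 * (univ.filter fun v : Fin 4 → Fin n => univ.image v ∈ G).card) :=
            Nat.mul_le_mul_left _ (Nat.mul_le_mul_left _ h3)
        _ ≤ 11 * n ^ 7 + 16 * ∑ u : Fin 7 → Fin n, X6 (gv (fun A : Finset (Fin n) => A ∈ G) u) := h1
        _ ≤ 11 * n ^ 7 + 16 * (n * (720 * patterns G + 15 * n ^ 5)) :=
            Nat.add_le_add_left (Nat.mul_le_mul_left _ h4) _
        _ = _ := by ring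
    exact Nat.le_of_mul_le_mul_left h6 hn

/-- the number of seven-tuples which are not of Giraud type -/
theorem bad7 {n : ℕ} {G : Finset (Finset (Fin n))} (hr : ∀ A ∈ G, A.card = 4) (hK : CliqueFree G) :
    190 * (16 * (24 * G.card) * n ^ 3) + (Pool.Agent.J6H5.St.B7 G).card ≤
      190 * (11 * n ^ 7 + 16 * (n * (720 * patterns G + 15 * n ^ 5))) := by
  classical
  have hB : ∀ u ∈ Pool.Agent.J6H5.St.B7 G, ¬ TG (gv (fun A : Finset (Fin n) => A ∈ G) u) := by
    intro u hu hT
    unfold Pool.Agent.J6H5.St.B7 at hu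
    rw [mem_filter] at hu
    refine hu.2.2 ?_
    obtain ⟨A, D, h⟩ := hT
    refine ⟨A, D, fun Q hQ => ?_⟩
    rw [← h Q hQ]
    unfold gv
    by_cases hm : Q.image u ∈ G
    · simp [hm]
    · simp [hm]
  have h1 := (core (free_of hr hK)).2 _ hB
  rw [sum_gv4, Fintype.card_fin] at h1
  have h3 := card_tuples (k := 4) G hr
  have h4 := X6_patterns hr hK
  have h5 : 16 * (24 * G.card) * n ^ 3 ≤ 16 * (n ^ 3 * (univ.filter fun v : Fin 4 → Fin n => univ.image v ∈ G).card) := by
    calc 16 * (24 * G.card) * n ^ 3 = 16 * (n ^ 3 * (24 * G.card)) := by ring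
      _ ≤ _ := Nat.mul_le_mul_left _ (Nat.mul_le_mul_left _ h3)
  omega

/-! the construction -/

open Pool.Agent.W846.F2 (gr gr_free gr_uniform gr_card exists_D qd qd_card cel)
open Pool.Agent.N443.PL (low_num inn mem4)

theorem inn_le {V : Type} [Fintype V] [DecidableEq V] (A : Finset V) (x : V) : inn A x ≤ 1 := by
  unfold inn; split_ifs <;> norm_num

/-- four vertices which are not in the construction -/
theorem nm4 {n : ℕ} (A : Finset (Fin n)) (D : Finset (Fin n × Fin n)) {p q x y : Fin n} (h1 : p ≠ q) (h2 : p ≠ x)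
    (h3 : p ≠ y) (h4 : q ≠ x) (h5 : q ≠ y) (h6 : x ≠ y) (h : ({p, q, x, y} : Finset (Fin n)) ∉ gr A D) :
    inn A p + (inn A q + (inn A x + inn A y)) ≠ 1 ∧ inn A p + (inn A q + (inn A x + inn A y)) ≠ 3 := by
  rw [mem4 A D h1 h2 h3 h4 h5 h6] at h
  push Not at h
  exact ⟨h.1, h.2.1⟩

theorem ms4 {n : ℕ} (A : Finset (Fin n)) (D : Finset (Fin n × Fin n)) {p q x y : Fin n} (h1 : p ≠ q) (h2 : p ≠ x)
    (h3 : p ≠ y) (h4 : q ≠ x) (h5 : q ≠ y) (h6 : x ≠ y) (h : ({p, q, x, y} : Finset (Fin n)) ∈ gr A D) :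
    1 ≤ inn A p + (inn A q + (inn A x + inn A y)) ∧ inn A p + (inn A q + (inn A x + inn A y)) ≤ 3 := by
  rw [mem4 A D h1 h2 h3 h4 h5 h6] at h
  omega

end

end Pool.Agent.J6H5.Sg
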