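import Pool.Agent.J6H5.Sg.Ker

/-! Kernel computation. -/

set_option autoImplicit false
set_option maxRecDepth 100000
set_option maxHeartbeats 4000000

namespace Pool.Agent.J6H5.Sg

theorem kk10 : chkA 1916 = true ∧ chkA 1917 = true ∧ chkA 2012 = true ∧ chkA 2013 = true ∧ chkA 2014 = true ∧ chkA 2046 = true ∧ chkG [495496, 495615, 507801, 507886, 516010, 516061, 520123, 520140, 553079, 1019791, 1019896, 1032094, 1032169, 1040301, 1040346, 1044412, 1044427] 3823 = true ∧ chkA 3824 = true ∧ chkA 3825 = true :=
  ⟨by decide +kernel, by decide +kernel, by decide +kernel, by decide +kernel, by decide +kernel, by decide +kernel, by decide +kernel, by decide +kernel, by decide +kernel⟩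

end Pool.Agent.J6H5.Sg
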