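import Pool.Agent.J6H5.Sg.Ker

/-! Kernel computation. -/

set_option autoImplicit false
set_option maxRecDepth 100000
set_option maxHeartbeats 4000000

namespace Pool.Agent.J6H5.Sg

theorem kk11 : chkA 3827 = true ∧ chkA 3831 = true ∧ chkG [185685, 188415, 862890, 883455, 901051, 913390, 1038325, 1039711] 3857 = true ∧ chkA 3859 = true ∧ chkA 3863 = true ∧ chkA 3893 = true ∧ chkA 3895 = true ∧ chkA 3900 = true ∧ chkA 3901 = true :=
  ⟨by decide +kernel, by decide +kernel, by decide +kernel, by decide +kernel, by decide +kernel, by decide +kernel, by decide +kernel, by decide +kernel, by decide +kernel⟩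

end Pool.Agent.J6H5.Sg
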