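import Pool.Agent.J6H5.Sg.Ker

/-! Kernel computation. -/

set_option autoImplicit false
set_option maxRecDepth 100000
set_option maxHeartbeats 4000000

namespace Pool.Agent.J6H5.Sg

theorem kk12 : chkA 3902 = true ∧ chkG [185719, 188381, 862975, 883370, 901102, 913339, 1038295, 1039741] 3959 = true ∧ chkA 3962 = true ∧ chkA 3963 = true ∧ chkA 3966 = true ∧ chkG [359133, 384989, 701747, 704494, 714086, 716731, 1030115, 1031486, 1042358, 1043819] 4094 = true ∧ chkA 6108 = true ∧ chkA 6109 = true ∧ chkA 6654 = true :=
  ⟨by decide +kernel, by decide +kernel, by decide +kernel, by decide +kernel, by decide +kernel, by decide +kernel, by decide +kernel, by decide +kernel, by decide +kernel⟩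

end Pool.Agent.J6H5.Sg
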