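import Pool.Agent.J6H5.Sg.Ker

/-! Kernel computation. -/

set_option autoImplicit false
set_option maxRecDepth 100000
set_option maxHeartbeats 4000000

namespace Pool.Agent.J6H5.Sg

theorem kk13 : chkA 7100 = true ∧ chkA 7101 = true ∧ chkA 7166 = true ∧ chkA 8157 = true ∧ chkG [259806, 260589, 331775, 349559, 352170, 352221, 390638, 391901, 393011, 457533, 458451, 497533, 499159, 509791, 511477, 654141, 655059, 659455, 697787, 699135, 700262, 718318, 719581, 720691, 746431, 748795, 771775, 772603, 849630, 850413, 868254, 868329, 880572, 880587, 932839, 933502, 957310, 958183, 1005479, 1006970, 1025899, 1027510, 1045159, 1045200, 1046334, 1046345, 1046541, 1046650, 1047956, 1048035] 15870 = true :=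
  ⟨by decide +kernel, by decide +kernel, by decide +kernel, by decide +kernel, by decide +kernel⟩

end Pool.Agent.J6H5.Sg
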