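import Pool.Agent.J6H5.Sg.Ker

/-! Kernel computation. -/

set_option autoImplicit false
set_option maxRecDepth 100000
set_option maxHeartbeats 4000000

namespace Pool.Agent.J6H5.Sg

theorem kk3 : chkA 246 = true ∧ chkA 247 = true ∧ chkA 254 = true ∧ chkG [350941, 393181, 697634, 700415, 718199, 720810, 1026034, 1027375, 1046439, 1047930] 510 = true ∧ chkA 615 = true ∧ chkA 616 = true ∧ chkA 617 = true ∧ chkA 619 = true ∧ chkA 623 = true :=
  ⟨by decide +kernel, by decide +kernel, by decide +kernel, by decide +kernel, by decide +kernel, by decide +kernel, by decide +kernel, by decide +kernel, by decide +kernel⟩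

end Pool.Agent.J6H5.Sg
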