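import Pool.Agent.J6H5.Sg.Ker

/-! Kernel computation. -/

set_option autoImplicit false
set_option maxRecDepth 100000
set_option maxHeartbeats 4000000

namespace Pool.Agent.J6H5.Sg

theorem kk4 : chkA 632 = true ∧ chkA 633 = true ∧ chkA 635 = true ∧ chkA 655 = true ∧ chkA 656 = true ∧ chkA 657 = true ∧ chkA 659 = true ∧ chkA 662 = true ∧ chkA 663 = true :=
  ⟨by decide +kernel, by decide +kernel, by decide +kernel, by decide +kernel, by decide +kernel, by decide +kernel, by decide +kernel, by decide +kernel, by decide +kernel⟩

end Pool.Agent.J6H5.Sg
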