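import Pool.Agent.J6H5.Sg.Ker

/-! Kernel computation. -/

set_option autoImplicit false
set_option maxRecDepth 100000
set_option maxHeartbeats 4000000

namespace Pool.Agent.J6H5.Sg

theorem kk6 : chkA 701 = true ∧ chkA 750 = true ∧ chkA 751 = true ∧ chkA 758 = true ∧ chkA 759 = true ∧ chkA 760 = true ∧ chkA 761 = true ∧ chkA 762 = true ∧ chkA 763 = true :=
  ⟨by decide +kernel, by decide +kernel, by decide +kernel, by decide +kernel, by decide +kernel, by decide +kernel, by decide +kernel, by decide +kernel, by decide +kernel⟩

end Pool.Agent.J6H5.Sg
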