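import Pool.Agent.J6H5.Sg.Ker

/-! Kernel computation. -/

set_option autoImplicit false
set_option maxRecDepth 100000
set_option maxHeartbeats 4000000

namespace Pool.Agent.J6H5.Sg

theorem kk7 : chkA 766 = true ∧ chkA 920 = true ∧ chkA 921 = true ∧ chkA 922 = true ∧ chkA 923 = true ∧ chkA 926 = true ∧ chkA 954 = true ∧ chkA 955 = true ∧ chkA 956 = true :=
  ⟨by decide +kernel, by decide +kernel, by decide +kernel, by decide +kernel, by decide +kernel, by decide +kernel, by decide +kernel, by decide +kernel, by decide +kernel⟩

end Pool.Agent.J6H5.Sg
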