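import Pool.Agent.J6H5.Sg.Ker

/-! Kernel computation. -/

set_option autoImplicit false
set_option maxRecDepth 100000
set_option maxHeartbeats 4000000

namespace Pool.Agent.J6H5.Sg

theorem kk9 : chkA 1783 = true ∧ chkA 1788 = true ∧ chkA 1789 = true ∧ chkA 1880 = true ∧ chkA 1881 = true ∧ chkA 1883 = true ∧ chkA 1884 = true ∧ chkA 1885 = true ∧ chkA 1915 = true :=
  ⟨by decide +kernel, by decide +kernel, by decide +kernel, by decide +kernel, by decide +kernel, by decide +kernel, by decide +kernel, by decide +kernel, by decide +kernel⟩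

end Pool.Agent.J6H5.Sg
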