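import Pool.Agent.J6H5.Sg.K0
import Pool.Agent.J6H5.Sg.K1
import Pool.Agent.J6H5.Sg.K2
import Pool.Agent.J6H5.Sg.K3
import Pool.Agent.J6H5.Sg.K4
import Pool.Agent.J6H5.Sg.K5
import Pool.Agent.J6H5.Sg.K6
import Pool.Agent.J6H5.Sg.K7
import Pool.Agent.J6H5.Sg.K8
import Pool.Agent.J6H5.Sg.K9
import Pool.Agent.J6H5.Sg.K10
import Pool.Agent.J6H5.Sg.K11
import Pool.Agent.J6H5.Sg.K12
import Pool.Agent.J6H5.Sg.K13

/-! All kernel computations. -/

set_option autoImplicit false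
set_option maxRecDepth 100000

namespace Pool.Agent.J6H5.Sg

/-- the codes of representatives which are not of Giraud type -/
def repB : List ℕ := [1, 3, 7, 15, 35, 36, 37, 39, 44, 45, 47, 60, 61, 102, 103, 106, 107, 110, 111, 120, 121, 122, 123, 126, 238, 239, 246, 247, 254, 615, 616, 617, 619, 623, 632, 633, 635, 655, 656, 657, 659, 662, 663, 684, 685, 687, 691, 692, 693, 694, 695, 700, 701, 750, 751, 758, 759, 760, 761, 762, 763, 766, 920, 921, 922, 923, 926, 954, 955, 956, 957, 958, 1022, 1743, 1749, 1751, 1775, 1780, 1781, 1783, 1788, 1789, 1880, 1881, 1883, 1884, 1885, 1915, 1916, 1917, 2012, 2013, 2014, 2046, 3824, 3825, 3827, 3831, 3859, 3863, 3893, 3895, 3900, 3901, 3902, 3962, 3963, 3966, 6108, 6109, 6654, 7100, 7101, 7166, 8157]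

/-- the codes of representatives of Giraud type, with the links of Giraud type -/
def repG : List (ℕ × List ℕ) := [(0, [0, 1048575]), (510, [350941, 393181, 697634, 700415, 718199, 720810, 1026034, 1027375, 1046439, 1047930]), (3823, [495496, 495615, 507801, 507886, 516010, 516061, 520123, 520140, 553079, 1019791, 1019896, 1032094, 1032169, 1040301, 1040346, 1044412, 1044427]), (3857, [185685, 188415, 862890, 883455, 901051, 913390, 1038325, 1039711]), (3959, [185719, 188381, 862975, 883370, 901102, 913339, 1038295, 1039741]), (4094, [359133, 384989, 701747, 704494, 714086, 716731, 1030115, 1031486, 1042358, 1043819]), (15870, [259806, 260589, 331775, 349559, 352170, 352221, 390638, 391901, 393011, 457533, 458451, 497533, 499159, 509791, 511477, 654141, 655059, 659455, 697787, 699135, 700262, 718318, 719581, 720691, 746431, 748795, 771775, 772603, 849630, 850413, 868254, 868329, 880572, 880587,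 932839, 933502, 957310, 958183, 1005479, 1006970, 1025899, 1027510, 1045159, 1045200, 1046334, 1046345, 1046541, 1046650, 1047956, 1048035])]

theorem k_bad : ∀ c ∈ repB, chkA c = true := by
  intro c hc
  simp only [repB, List.mem_cons, List.not_mem_nil, or_false] at hc
  rcases hc with rfl | rfl | rfl | rfl | rfl | rfl | rfl | rfl | rfl | rfl | rfl | rfl | rfl | rfl | rfl | rfl | rfl | rfl | rfl | rfl | rfl | rfl | rfl | rfl | rfl | rfl | rfl | rfl | rfl | rfl | rfl | rfl | rfl | rfl | rfl | rfl | rfl | rfl | rfl | rfl | rfl | rfl | rfl | rfl | rfl | rfl | rfl | rfl | rfl | rfl | rfl | rfl | rfl | rfl | rfl | rfl | rfl | rfl | rfl | rfl | rfl | rfl | rfl | rfl | rfl | rfl | rfl | rfl | rfl | rfl | rfl | rfl | rfl | rfl | rfl | rfl | rfl | rfl | rfl | rfl | rfl | rfl | rfl | rfl | rfl | rfl | rfl | rfl | rfl | rfl | rfl | rfl | rfl | rfl | rfl | rfl | rfl | rfl | rfl | rfl | rfl | rfl | rfl | rfl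 | rfl | rfl | rfl | rfl | rfl | rfl | rfl | rfl | rfl | rfl | rfl
  · exact kk0.2.1
  · exact kk0.2.2.1
  · exact kk0.2.2.2.1
  · exact kk0.2.2.2.2.1
  · exact kk0.2.2.2.2.2.1
  · exact kk0.2.2.2.2.2.2.1
  · exact kk0.2.2.2.2.2.2.2.1
  · exact kk0.2.2.2.2.2.2.2.2
  · exact kk1.1
  · exact kk1.2.1
  · exact kk1.2.2.1
  · exact kk1.2.2.2.1
  · exact kk1.2.2.2.2.1
  · exact kk1.2.2.2.2.2.1
  · exact kk1.2.2.2.2.2.2.1
  · exact kk1.2.2.2.2.2.2.2.1
  · exact kk1.2.2.2.2.2.2.2.2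
  · exact kk2.1
  · exact kk2.2.1
  · exact kk2.2.2.1
  · exact kk2.2.2.2.1
  · exact kk2.2.2.2.2.1
  · exact kk2.2.2.2.2.2.1
  · exact kk2.2.2.2.2.2.2.1
  · exact kk2.2.2.2.2.2.2.2.1
  · exact kk2.2.2.2.2.2.2.2.2
  · exact kk3.1
  · exact kk3.2.1
  · exact kk3.2.2.1
  · exact kk3.2.2.2.2.1
  · exact kk3.2.2.2.2.2.1
  · exact kk3.2.2.2.2.2.2.1
  · exact kk3.2.2.2.2.2.2.2.1
  · exact kk3.2.2.2.2.2.2.2.2
  · exact kk4.1
  · exact kk4.2.1
  · exact kk4.2.2.1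
  · exact kk4.2.2.2.1
  · exact kk4.2.2.2.2.1
  · exact kk4.2.2.2.2.2.1
  · exact kk4.2.2.2.2.2.2.1
  · exact kk4.2.2.2.2.2.2.2.1
  · exact kk4.2.2.2.2.2.2.2.2
  · exact kk5.1
  · exact kk5.2.1
  · exact kk5.2.2.1
  · exact kk5.2.2.2.1
  · exact kk5.2.2.2.2.1
  · exact kk5.2.2.2.2.2.1
  · exact kk5.2.2.2.2.2.2.1
  · exact kk5.2.2.2.2.2.2.2.1
  · exact kk5.2.2.2.2.2.2.2.2
  · exact kk6.1
  · exact kk6.2.1
  · exact kk6.2.2.1
  · exact kk6.2.2.2.1
  · exact kk6.2.2.2.2.1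
  · exact kk6.2.2.2.2.2.1
  · exact kk6.2.2.2.2.2.2.1
  · exact kk6.2.2.2.2.2.2.2.1
  · exact kk6.2.2.2.2.2.2.2.2
  · exact kk7.1
  · exact kk7.2.1
  · exact kk7.2.2.1
  · exact kk7.2.2.2.1
  · exact kk7.2.2.2.2.1
  · exact kk7.2.2.2.2.2.1
  · exact kk7.2.2.2.2.2.2.1
  · exact kk7.2.2.2.2.2.2.2.1
  · exact kk7.2.2.2.2.2.2.2.2
  · exact kk8.1
  · exact kk8.2.1
  · exact kk8.2.2.1
  · exact kk8.2.2.2.1
  · exact kk8.2.2.2.2.1
  · exact kk8.2.2.2.2.2.1
  · exact kk8.2.2.2.2.2.2.1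
  · exact kk8.2.2.2.2.2.2.2.1
  · exact kk8.2.2.2.2.2.2.2.2
  · exact kk9.1
  · exact kk9.2.1
  · exact kk9.2.2.1
  · exact kk9.2.2.2.1
  · exact kk9.2.2.2.2.1
  · exact kk9.2.2.2.2.2.1
  · exact kk9.2.2.2.2.2.2.1
  · exact kk9.2.2.2.2.2.2.2.1
  · exact kk9.2.2.2.2.2.2.2.2
  · exact kk10.1
  · exact kk10.2.1
  · exact kk10.2.2.1
  · exact kk10.2.2.2.1
  · exact kk10.2.2.2.2.1
  · exact kk10.2.2.2.2.2.1
  · exact kk10.2.2.2.2.2.2.2.1
  · exact kk10.2.2.2.2.2.2.2.2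
  · exact kk11.1
  · exact kk11.2.1
  · exact kk11.2.2.2.1
  · exact kk11.2.2.2.2.1
  · exact kk11.2.2.2.2.2.1
  · exact kk11.2.2.2.2.2.2.1
  · exact kk11.2.2.2.2.2.2.2.1
  · exact kk11.2.2.2.2.2.2.2.2
  · exact kk12.1
  · exact kk12.2.2.1
  · exact kk12.2.2.2.1
  · exact kk12.2.2.2.2.1
  · exact kk12.2.2.2.2.2.2.1
  · exact kk12.2.2.2.2.2.2.2.1
  · exact kk12.2.2.2.2.2.2.2.2
  · exact kk13.1
  · exact kk13.2.1
  · exact kk13.2.2.1
  · exact kk13.2.2.2.1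

theorem k_good : ∀ p ∈ repG, chkG p.2 p.1 = true := by
  intro p hp
  simp only [repG, List.mem_cons, List.not_mem_nil, or_false] at hp
  rcases hp with rfl | rfl | rfl | rfl | rfl | rfl | rfl
  · exact kk0.1
  · exact kk3.2.2.2.1
  · exact kk10.2.2.2.2.2.2.1
  · exact kk11.2.2.1
  · exact kk12.2.1
  · exact kk12.2.2.2.2.2.1
  · exact kk13.2.2.2.2

end Pool.Agent.J6H5.Sg
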