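import Pool.Agent.J6H5.Sg.Eng
import Pool.Agent.J6H5.Sg.KAll
import Pool.Agent.J6H5.St.Defs
import Pool.Agent.N443.Core.Cls

/-! The sharper bound for the sum over all pairs, for every admissible set function. -/

set_option autoImplicit false
set_option maxRecDepth 100000
open Finset Equiv

namespace Pool.Agent.J6H5.Sg

noncomputable section

open Pool.Agent.J6H5.C26
open Pool.Agent.J6H5.St (gir)
open Pool.Agent.Y435.T7 (bt)
open Pool.Agent.N443 (st_eq al_true cnd_and mkN mkN_congr mkN_lt bt_mkN codeN act Cl Kp Inv7 Psi Psi_act cov cov_spec okP okP_spec wf2 ph2)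

/-! the construction and permutations -/

theorem gir_perm {α : Type} [DecidableEq α] (σ : Perm α) (A : Finset α) (D : α → α → Bool) (Q : Finset α) :
    gir (A.image σ) (fun x y => D (σ.symm x) (σ.symm y)) (Q.image σ) ↔ gir A D Q := by
  have h1 : Q.image σ ∩ A.image σ = (Q ∩ A).image σ := (image_inter _ _ σ.injective).symm
  have h2 : Q.image σ \ A.image σ = (Q \ A).image σ := (image_sdiff _ _ σ.injective).symm
  have h3 : (((Q ∩ A).image σ ×ˢ (Q \ A).image σ).filter fun p => D (σ.symm p.1) (σ.symm p.2) = true).card =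
      (((Q ∩ A) ×ˢ (Q \ A)).filter fun p => D p.1 p.2 = true).card := by
    symm
    refine card_bij (fun p _ => (σ p.1, σ p.2)) ?_ ?_ ?_
    · intro p hp
      rw [mem_filter, mem_product] at hp ⊢
      refine ⟨⟨mem_image_of_mem _ hp.1.1, mem_image_of_mem _ hp.1.2⟩, ?_⟩
      rw [Equiv.symm_apply_apply, Equiv.symm_apply_apply]
      exact hp.2
    · intro p _ q _ h
      rw [Prod.mk.injEq] at h
      exact Prod.ext (σ.injective h.1) (σ.injective h.2)
    · intro p hp
      rw [mem_filter, mem_product] at hp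
      obtain ⟨⟨ha, hb⟩, hc⟩ := hp
      obtain ⟨x, hx, hx2⟩ := mem_image.mp ha
      obtain ⟨y, hy, hy2⟩ := mem_image.mp hb
      refine ⟨(x, y), mem_filter.mpr ⟨mem_product.mpr ⟨hx, hy⟩, ?_⟩, Prod.ext hx2 hy2⟩
      rw [← hx2, ← hy2, Equiv.symm_apply_apply, Equiv.symm_apply_apply] at hc
      exact hc
  unfold gir
  rw [h1, h2, card_image_of_injective _ σ.injective]
  beta_reduce
  rw [h3]

/-- set functions of the construction -/
def TG (g : Finset (Fin 7) → ℕ) : Prop :=
  ∃ (A : Finset (Fin 7)) (D : Fin 7 → Fin 7 → Bool), ∀ Q : Finset (Fin 7), Q.card = 4 → (g Q = 1 ↔ gir A D Q)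

theorem TG_act {σ : Perm (Fin 7)} {g : Finset (Fin 7) → ℕ} (h : TG (act σ g)) : TG g := by
  obtain ⟨A, D, h⟩ := h
  refine ⟨A.image σ, fun x y => D (σ.symm x) (σ.symm y), fun Q hQ => ?_⟩
  have h1 := h (Q.image σ.symm) (by rw [card_image_of_injective _ σ.symm.injective, hQ])
  have e : (Q.image σ.symm).image σ = Q := by
    rw [image_image]
    simp
  unfold act at h1
  rw [e] at h1
  have h2 := gir_perm σ A D (Q.image σ.symm)
  rw [e] at h2
  rw [h1, h2]

/-! witnesses -/

def wA (a : ℕ) : Finset (Fin 7) := univ.filter fun x => a.testBit x.val = true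
def wD (d : ℕ) (x y : Fin 7) : Bool := d.testBit (7 * x.val + y.val)

/-- code, link, and the structure -/
def WT : List (ℕ × ℕ × ℕ × ℕ) := [(0, 0, 0, 0), (0, 1048575, 64, 0), (510, 350941, 48, 0), (510, 393181, 48, 2199023255552), (510, 697634, 112, 0), (510, 700415, 112, 52776558133248), (510, 718199, 112, 35184372088832), (510, 720810, 112, 17592186044416), (510, 1026034, 112, 61572651155456), (510, 1027375, 112, 8796093022208), (510, 1046439, 112, 26388279066624), (510, 1047930, 112, 43980465111040), (3823, 495496, 72, 0), (3823, 495615, 72, 228698418577408), (3823, 507801, 72, 70368744177664), (3823, 507886, 72, 158329674399744), (3823, 516010, 72, 17592186044416), (3823, 516061, 72, 211106232532992), (3823, 520123, 72, 87960930222080), (3823, 520140, 72, 140737488355328), (3823, 553079, 8, 0), (3823, 1019791, 72, 8796093022208), (3823, 1019896, 72, 237494511599616), (3823, 1032094, 72, 79164837199872), (3823, 1032169, 72, 167125767421952), (3823, 1040301, 72,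 26388279066624), (3823, 1040346, 72, 219902325555200), (3823, 1044412, 72, 96757023244288), (3823, 1044427, 72, 149533581377536), (3857, 185685, 7, 0), (3857, 188415, 7, 1048576), (3857, 862890, 56, 0), (3857, 883455, 56, 2216203124736), (3857, 901051, 56, 17179869184), (3857, 913390, 56, 2199023255552), (3857, 1038325, 7, 1056768), (3857, 1039711, 7, 8192), (3959, 185719, 7, 1835008), (3959, 188381, 7, 786432), (3959, 862975, 56, 2354715820032), (3959, 883370, 56, 138512695296), (3959, 901102, 56, 2337535950848), (3959, 913339, 56, 155692564480), (3959, 1038295, 7, 794624), (3959, 1039741, 7, 1843200), (4094, 359133, 48, 274877906944), (4094, 384989, 48, 2473901162496), (4094, 701747, 112, 35459249995776), (4094, 704494, 112, 17867063951360), (4094, 714086, 112, 274877906944), (4094, 716731, 112, 53051436040192), (4094, 1030115, 112, 26663156973568), (4094, 1031486, 112, 44255343017984), (4094, 1042358, 112, 61847529062400), (4094, 1043819, 112, 9070970929152), (15870,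 259806, 25, 1140850688), (15870, 260589, 26, 1140850688), (15870, 331775, 3, 6144), (15870, 349559, 76, 100663296), (15870, 352170, 76, 211106333196288), (15870, 352221, 48, 2611340115968), (15870, 390638, 76, 70368844840960), (15870, 391901, 48, 412316860416), (15870, 393011, 76, 140737589018624), (15870, 457533, 42, 137472507904), (15870, 458451, 41, 137472507904), (15870, 497533, 42, 2336495763456), (15870, 499159, 41, 2336495763456), (15870, 509791, 25, 18320719872), (15870, 511477, 26, 18320719872), (15870, 654141, 22, 2148007936), (15870, 655059, 21, 2148007936), (15870, 659455, 3, 14336), (15870, 697787, 112, 53188874993664), (15870, 699135, 12, 234881024), (15870, 700262, 112, 412316860416), (15870, 718318, 112, 18004502904832), (15870, 719581, 12, 100663296), (15870, 720691, 112, 35596688949248), (15870, 746431, 22, 2149056512), (15870, 748795, 21, 2149056512), (15870, 771775, 25, 1275068416), (15870, 772603, 26, 1275068416), (15870, 849630, 37, 274878169088),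 (15870, 850413, 38, 274878169088), (15870, 868254, 37, 2473901424640), (15870, 868329, 38, 2473901424640), (15870, 880572, 22, 19327877120), (15870, 880587, 21, 19327877120), (15870, 932839, 38, 274879217664), (15870, 933502, 37, 274879217664), (15870, 957310, 42, 137606725632), (15870, 958183, 41, 137606725632), (15870, 1005479, 76, 219902426218496), (15870, 1006970, 76, 8796193685504), (15870, 1025899, 112, 9208409882624), (15870, 1027510, 112, 61984968015872), (15870, 1045159, 67, 246290604627968), (15870, 1045200, 67, 211106232539136), (15870, 1046334, 67, 175921860450304), (15870, 1046345, 67, 140737488361472), (15870, 1046541, 67, 6144), (15870, 1046650, 67, 35184372094976), (15870, 1047956, 67, 70368744183808), (15870, 1048035, 67, 105553116272640)]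

theorem WT_ok : ∀ w ∈ WT, (∀ j < 15, (bt j w.1 = 1 ↔ gir (wA w.2.2.1) (wD w.2.2.2) (CQ.getD j ∅))) ∧
    (∀ j < 20, (bt j w.2.1 = 1 ↔ gir (wA w.2.2.1) (wD w.2.2.2) (LF.getD j ∅))) := by decide +kernel

theorem WT_all : ∀ p ∈ repG, ∀ i ∈ p.2, ∃ w ∈ WT, w.1 = p.1 ∧ w.2.1 = i := by decide +kernel

theorem quads : ∀ Q ∈ powersetCard 4 (univ : Finset (Fin 7)), (∃ j, j < 15 ∧ CQ.getD j ∅ = Q) ∨ (∃ j, j < 20 ∧ LF.getD j ∅ = Q) := by
  decide +kernel

theorem repG_ok : ∀ p ∈ repG, p.2.Nodup ∧ (∀ i ∈ p.2, i < 2 ^ 20) := by decide +kernel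

theorem TG_of {g : Finset (Fin 7) → ℕ} (hg : ∀ Q, g Q ≤ 1) {p : ℕ × List ℕ} (hp : p ∈ repG) (hc : codeN 15 CQ g = p.1)
    (hi : codeN 20 LF g ∈ p.2) : TG g := by
  obtain ⟨w, hw, h1, h2⟩ := WT_all p hp _ hi
  obtain ⟨h3, h4⟩ := WT_ok w hw
  refine ⟨wA w.2.2.1, wD w.2.2.2, fun Q hQ => ?_⟩
  rcases quads Q (mem_powersetCard.mpr ⟨subset_univ _, hQ⟩) with ⟨j, hj, rfl⟩ | ⟨j, hj, rfl⟩
  · rw [← h3 j hj, h1, ← hc]
    unfold codeN
    rw [bt_mkN hj fun _ => hg _]
  · rw [← h4 j hj, h2]
    unfold codeN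
    rw [bt_mkN hj fun _ => hg _]

/-! the classes -/

/-- the codes of representatives -/
def reps : List ℕ := repB ++ repG.map Prod.fst

def t0 : List (ℕ × ℕ) := [(1, 2), (5, 6), (10, 11), (12, 13)]
def t1 : List (ℕ × ℕ) := [(2, 3), (6, 7), (9, 10), (13, 14)]
def t2 : List (ℕ × ℕ) := [(3, 4), (7, 8), (10, 12), (11, 13)]
def t3 : List (ℕ × ℕ) := [(0, 4), (5, 12), (6, 13), (7, 14)]
def t4 : List (ℕ × ℕ) := [(1, 5), (2, 6), (3, 7), (4, 8)]
theorem ot0 : okP 15 CQ t0 (swap 0 1) = true := by decide +kernel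
theorem ot1 : okP 15 CQ t1 (swap 1 2) = true := by decide +kernel
theorem ot2 : okP 15 CQ t2 (swap 2 3) = true := by decide +kernel
theorem ot3 : okP 15 CQ t3 (swap 3 4) = true := by decide +kernel
theorem ot4 : okP 15 CQ t4 (swap 4 5) = true := by decide +kernel
/-- a word for the longest permutation -/
def WL : List (List (ℕ × ℕ)) := [t0, t1, t0, t2, t1, t0, t3, t2, t1, t0, t4, t3, t2, t1, t0]
/-- complete sets of five -/
def BP : List (List ℕ × Finset (Fin 7)) := [([1, 5, 12, 10, 9], {1, 2, 3, 4, 5}), ([2, 6, 13, 11, 9], {0, 2, 3, 4, 5}), ([3, 7, 14, 11, 10], {0, 1, 3, 4, 5}), ([4, 8, 14, 13, 12], {0, 1, 2, 4, 5}), ([0, 8, 7, 6, 5], {0, 1, 2, 3, 5}), ([0, 4, 3, 2, 1], {0, 1, 2, 3, 4})]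

theorem cov_ok : cov 15 reps WL (BP.map Prod.fst) = true := by decide +kernel

theorem reps_lt : ∀ c ∈ reps, c < 2 ^ 15 := by decide +kernel

/-- the value is bounded for all set functions with this code -/
def Good (c : ℕ) : Prop := ∀ g, Val g → codeN 15 CQ g = c → Psi GG g ≤ cC ∧ (¬ TG g → Psi GG g + s0 ≤ cC)

theorem good_rep {c : ℕ} (hc : c ∈ reps) : Good c := by
  intro g hg e
  have hlt : codeN 20 LF g < 2 ^ 20 := mkN_lt fun _ => hg.1 _
  rcases List.mem_append.mp hc with h | h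
  · have h1 := chkA_spec (k_bad c h) hlt
    rw [← e, SV_Psi hg] at h1
    exact ⟨by omega, fun _ => h1⟩
  · obtain ⟨p, hp, rfl⟩ := List.mem_map.mp h
    obtain ⟨h1, h2⟩ := chkG_spec (repG_ok p hp).1 (repG_ok p hp).2 (k_good p hp) hlt
    rw [← e, SV_Psi hg] at h1 h2
    exact ⟨h1, fun hT => h2 fun hi => hT (TG_of hg.1 hp e hi)⟩

theorem good_step {l : List (ℕ × ℕ)} {σ : Perm (Fin 7)} (h : okP 15 CQ l σ = true) {c : ℕ} (hc : Good (ph2 l c)) : Good c := by
  intro g hg e
  have h1 := hc (act σ g) (Val_cl g hg σ) (by rw [← e]; exact (okP_spec h hg.1).2.symm)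
  rw [Psi_act inv7 hg σ] at h1
  exact ⟨h1.1, fun hT => h1.2 fun h => hT (TG_act h)⟩

theorem WL_ok : ∀ l ∈ WL, ∃ σ, okP 15 CQ l σ = true := by
  intro l hl
  simp only [WL, List.mem_cons, List.not_mem_nil, or_false] at hl
  rcases hl with rfl | rfl | rfl | rfl | rfl | rfl | rfl | rfl | rfl | rfl | rfl | rfl | rfl | rfl | rfl
  · exact ⟨_, ot0⟩
  · exact ⟨_, ot1⟩
  · exact ⟨_, ot0⟩
  · exact ⟨_, ot2⟩
  · exact ⟨_, ot1⟩
  · exact ⟨_, ot0⟩
  · exact ⟨_, ot3⟩
  · exact ⟨_, ot2⟩
  · exact ⟨_, ot1⟩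
  · exact ⟨_, ot0⟩
  · exact ⟨_, ot4⟩
  · exact ⟨_, ot3⟩
  · exact ⟨_, ot2⟩
  · exact ⟨_, ot1⟩
  · exact ⟨_, ot0⟩

theorem BP_ok : ∀ x ∈ BP, x.2.card = 5 ∧ ∀ Q ∈ powersetCard 4 x.2, ∃ i ∈ x.1, i < 15 ∧ CQ.getD i ∅ = Q := by decide +kernel

theorem Psi_all {g : Finset (Fin 7) → ℕ} (hg : Val g) : Psi GG g ≤ cC ∧ (¬ TG g → Psi GG g + s0 ≤ cC) := by
  have h := cov_spec (G := Good) cov_ok (fun c hc => ⟨reps_lt c hc, good_rep hc⟩)
    (fun l hl => by obtain ⟨σ, h⟩ := WL_ok l hl; exact (okP_spec h hg.1).1)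
    (fun l hl c _ hc => by obtain ⟨σ, h⟩ := WL_ok l hl; exact good_step h hc)
    (c := codeN 15 CQ g) (mkN_lt fun _ => hg.1 _)
  rcases h with h | ⟨l, hl, h⟩
  · exact h g hg rfl
  · exfalso
    obtain ⟨x, hx, rfl⟩ := List.mem_map.mp hl
    obtain ⟨h1, h2⟩ := BP_ok x hx
    obtain ⟨Q, hQ, h0⟩ := hg.2 x.2 h1
    obtain ⟨i, hi, hi2, hi3⟩ := h2 Q hQ
    have h3 := h i hi
    unfold codeN at h3
    rw [bt_mkN hi2 fun j => hg.1 _, hi3, h0] at h3
    omega

end

end Pool.Agent.J6H5.Sg
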